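import Mathlib

/-!
# Countable sets closed under countably many operations on finite lists
-/

set_option autoImplicit false

namespace Pool.Agent.Helper15TD

theorem countable_lists {F : Type*} {S : Set F} (hS : S.Countable) :
    {l : List F | ∀ x ∈ l, x ∈ S}.Countable := by
  rcases S.eq_empty_or_nonempty with h | h
  · refine (Set.countable_singleton ([] : List F)).mono fun l hl => ?_
    cases l with
    | nil => rfl
    | cons a l =>
      have := hl a List.mem_cons_self
      rw [h] at this
      exact absurd this (Set.notMem_empty a)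
  · obtain ⟨a, ha⟩ := hS.exists_eq_range h
    refine (Set.countable_range fun s : List ℕ => s.map a).mono fun l hl => ?_
    induction l with
    | nil => exact ⟨[], rfl⟩
    | cons x l ih =>
      obtain ⟨s, hs⟩ := ih fun y hy => hl y (List.mem_cons_of_mem _ hy)
      have hx := hl x List.mem_cons_self
      rw [ha] at hx
      obtain ⟨n, rfl⟩ := hx
      refine ⟨n :: s, ?_⟩
      have hs' : s.map a = l := hs
      change (n :: s).map a = a n :: l
      rw [List.map_cons, hs']

theorem exists_closure {F I : Type*} [Countable I] (op : I → List F → F) {S0 : Set F}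
    (h0 : S0.Countable) : ∃ A : Set F, A.Countable ∧ S0 ⊆ A ∧
      ∀ i (l : List F), (∀ x ∈ l, x ∈ A) → op i l ∈ A := by
  let S : ℕ → Set F := fun n => Nat.rec S0
    (fun _ T => T ∪ ⋃ i, op i '' {l : List F | ∀ x ∈ l, x ∈ T}) n
  have hS : ∀ n, S (n + 1) = S n ∪ ⋃ i, op i '' {l : List F | ∀ x ∈ l, x ∈ S n} := fun n => rfl
  have hc : ∀ n, (S n).Countable := by
    intro n
    induction n with
    | zero => exact h0
    | succ n ih =>
      rw [hS]
      exact ih.union (Set.countable_iUnion fun i => (countable_lists ih).image _)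
  have hmono : Monotone S := monotone_nat_of_le_succ fun n => by
    rw [hS]
    exact Set.subset_union_left
  refine ⟨⋃ n, S n, Set.countable_iUnion hc, fun x hx => Set.mem_iUnion.2 ⟨0, hx⟩, ?_⟩
  intro i l hl
  have h1 : ∃ n, ∀ x ∈ l, x ∈ S n := by
    induction l with
    | nil => exact ⟨0, fun x hx => absurd hx List.not_mem_nil⟩
    | cons a l ih =>
      obtain ⟨n, hn⟩ := ih fun y hy => hl y (List.mem_cons_of_mem _ hy)
      obtain ⟨m, hm⟩ := Set.mem_iUnion.1 (hl a List.mem_cons_self)
      refine ⟨max n m, fun x hx => ?_⟩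
      rcases List.mem_cons.1 hx with rfl | h
      · exact hmono (le_max_right _ _) hm
      · exact hmono (le_max_left _ _) (hn x h)
  obtain ⟨n, hn⟩ := h1
  refine Set.mem_iUnion.2 ⟨n + 1, ?_⟩
  rw [hS]
  exact Or.inr (Set.mem_iUnion.2 ⟨i, l, hn, rfl⟩)

end Pool.Agent.Helper15TD
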