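import Mathlib
import Pool.Agent.Helper56_WN.Defs

/-!
# The set covered at almost all indices
-/

set_option autoImplicit false

namespace Pool.Agent.Helper15TD

open Pool.Agent.Helper25TD Pool.Agent.Helper56WN

/-- the set of all reals that have an initial segment in `C n` for almost all `n` -/
def Ev (C : ℕ → List (List Bool)) : Set (ℕ → Bool) := {x | ∃ N, ∀ n ≥ N, x ∈ Cov (C n)}

end Pool.Agent.Helper15TD
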