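import Mathlib
import Pool.Agent.Helper15_TD.Ev

/-!
# Definitions
-/

set_option autoImplicit false

namespace Pool.Agent.Helper15TD

open Pool.Agent.Helper25TD Pool.Agent.Helper56WN

/-- `S` is covered by countably many closed null sets -/
def Thin (S : Set (ℕ → Bool)) : Prop :=
  ∃ K : ℕ → Set (ℕ → Bool), (∀ n, IsClosed (K n) ∧ coin (K n) = 0) ∧ S ⊆ ⋃ n, K n

/-- the set of all `y` that compute a test `C` such that all elements of `E` that are computable
from `y` belong to `Ev C` -/
def Vis (E : Set (ℕ → Bool)) : Set (ℕ → Bool) :=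
  {y | ∃ C, IsTest C ∧ Computes y C ∧ ∀ x ∈ E, TLE x y → x ∈ Ev C}

/-- the sum (coordinatewise, modulo two) of two sets of reals -/
def Sums (E F : Set (ℕ → Bool)) : Set (ℕ → Bool) :=
  {w | ∃ x ∈ E, ∃ y ∈ F, w = fun n => xor (x n) (y n)}

end Pool.Agent.Helper15TD
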