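import Mathlib
import Pool.Agent.Helper56_WN.Null

/-!
# Translations of Cantor space preserve the coin measure; a Steinhaus theorem
-/

set_option autoImplicit false

namespace Pool.Agent.Helper15TD

open MeasureTheory Filter Topology Pool.Agent.Helper25TD Pool.Agent.Helper56WN
open scoped ENNReal

/-- the sum modulo two of two reals -/
def add (x y : ℕ → Bool) : ℕ → Bool := fun n => xor (x n) (y n)

theorem add_comm' (x y : ℕ → Bool) : add x y = add y x := by
  funext n
  exact Bool.xor_comm _ _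

theorem add_add_cancel (x y : ℕ → Bool) : add x (add x y) = y := by
  funext n
  simp only [add]
  cases x n <;> cases y n <;> rfl

theorem continuous_add_left (x : ℕ → Bool) : Continuous (add x) := by
  refine continuous_pi fun n => ?_
  exact (continuous_of_discreteTopology (f := fun b : Bool => xor (x n) b)).comp
    (continuous_apply n)

theorem unif (b : Bool) (S : Set Bool) : (PMF.uniformOfFintype Bool).toMeasure
    ((fun c : Bool => xor b c) ⁻¹' S) = (PMF.uniformOfFintype Bool).toMeasure S := by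
  classical
  rw [PMF.toMeasure_uniformOfFintype_apply _ MeasurableSet.of_discrete,
    PMF.toMeasure_uniformOfFintype_apply _ MeasurableSet.of_discrete]
  congr 2
  refine Fintype.card_congr ?_
  refine ⟨fun x => ⟨xor b x.1, x.2⟩, fun x => ⟨xor b x.1, ?_⟩, fun x => ?_, fun x => ?_⟩
  · change xor b (xor b x.1) ∈ S
    rw [← Bool.xor_assoc, Bool.xor_self, Bool.false_xor]
    exact x.2
  · apply Subtype.ext
    change xor b (xor b x.1) = x.1
    rw [← Bool.xor_assoc, Bool.xor_self, Bool.false_xor]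
  · apply Subtype.ext
    change xor b (xor b x.1) = x.1
    rw [← Bool.xor_assoc, Bool.xor_self, Bool.false_xor]

theorem map_add (u : ℕ → Bool) : coin.map (add u) = coin := by
  have hm : Measurable (add u) := (continuous_add_left u).measurable
  unfold coin
  refine Measure.eq_infinitePi _ fun s t ht => ?_
  have h1 : Set.pi (s : Set ℕ) t = Set.pi (s : Set ℕ) t := rfl
  rw [Measure.map_apply hm (MeasurableSet.pi s.countable_toSet fun i _ => ht i)]
  have h2 : add u ⁻¹' Set.pi (s : Set ℕ) t =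
      Set.pi (s : Set ℕ) fun i => (fun b : Bool => xor (u i) b) ⁻¹' t i := by
    ext x
    simp [Set.mem_pi, add]
  rw [h2, Measure.infinitePi_pi]
  · refine Finset.prod_congr rfl fun i _ => ?_
    exact unif (u i) (t i)
  · intro i _
    exact MeasurableSet.of_discrete

/-- the set of all `x` that agree with `a` below `n` -/
def cyl (a : ℕ → Bool) (n : ℕ) : Set (ℕ → Bool) := {x | ∀ j < n, x j = a j}

theorem isClosed_cyl' (a : ℕ → Bool) (n : ℕ) : IsClosed (cyl a n) := isClosed_cyl a n

theorem measurableSet_cyl (a : ℕ → Bool) (n : ℕ) : MeasurableSet (cyl a n) :=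
  (isClosed_cyl a n).measurableSet

theorem coin_cyl (a : ℕ → Bool) (n : ℕ) : coin (cyl a n) = ENNReal.ofReal ((1 / 2 : ℝ) ^ n) := by
  have h1 : cyl a n = {x | Init (pre a n) x} := by
    ext x
    simp only [cyl, Init, Set.mem_setOf_eq, pre, List.length_map, List.length_range]
    refine forall₂_congr fun j hj => ?_
    simp [List.getD_eq_getElem?_getD, hj]
  rw [h1, coin_init]
  simp [pre]

/-- the union of the cylinders of length `n` that meet `P` -/
def hull (P : Set (ℕ → Bool)) (n : ℕ) : Set (ℕ → Bool) := {x | ∃ x' ∈ P, ∀ j < n, x' j = x j}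

theorem isClopen_hull (P : Set (ℕ → Bool)) (n : ℕ) : IsClopen (hull P n) := by
  have hop : ∀ Q : Set (ℕ → Bool), (∀ x ∈ Q, ∀ y, (∀ j < n, y j = x j) → y ∈ Q) → IsOpen Q := by
    intro Q hQ
    rw [isOpen_iff_forall_mem_open]
    intro x hx
    exact ⟨{β | ∀ j < n, β j = x j}, fun y hy => hQ x hx y hy, isOpen_cyl x n, fun _ _ => rfl⟩
  refine ⟨?_, ?_⟩
  · rw [← isOpen_compl_iff]
    refine hop _ fun x hx y hy hy' => hx ?_
    obtain ⟨x', hx', h⟩ := hy'
    exact ⟨x', hx', fun j hj => (h j hj).trans (hy j hj)⟩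
  · refine hop _ fun x hx y hy => ?_
    obtain ⟨x', hx', h⟩ := hx
    exact ⟨x', hx', fun j hj => (h j hj).trans (hy j hj).symm⟩

theorem subset_hull (P : Set (ℕ → Bool)) (n : ℕ) : P ⊆ hull P n := fun x hx => ⟨x, hx, fun _ _ => rfl⟩

theorem antitone_hull (P : Set (ℕ → Bool)) : Antitone (hull P) := by
  rintro n m h x ⟨x', hx', hx⟩
  exact ⟨x', hx', fun j hj => hx j (hj.trans_le h)⟩

theorem iInter_hull {P : Set (ℕ → Bool)} (hP : IsClosed P) : ⋂ n, hull P n = P := by
  refine Set.Subset.antisymm (fun x hx => ?_) (Set.subset_iInter fun n => subset_hull P n)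
  by_contra hxP
  obtain ⟨n, hn⟩ := exists_cyl hP.isOpen_compl hxP
  obtain ⟨x', hx', h⟩ := Set.mem_iInter.1 hx n
  exact hn x' h hx'

theorem tendsto_hull {P : Set (ℕ → Bool)} (hP : IsClosed P) :
    Tendsto (fun n => coin (hull P n)) atTop (𝓝 (coin P)) := by
  have h1 := tendsto_measure_iInter_atTop (μ := coin) (s := hull P)
    (fun n => (isClopen_hull P n).isOpen.measurableSet.nullMeasurableSet) (antitone_hull P)
    ⟨0, measure_ne_top _ _⟩
  rwa [iInter_hull hP] at h1

/-- the first `n` values -/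
def rst (n : ℕ) (x : ℕ → Bool) : Fin n → Bool := fun j => x j

theorem sum_rst (n : ℕ) (A : Set (ℕ → Bool)) :
    ∑ s : Fin n → Bool, coin (rst n ⁻¹' {s} ∩ A) = coin A := by
  have hm : Measurable (rst n) := measurable_pi_lambda _ fun j => measurable_pi_apply _
  have h1 := sum_measure_preimage_singleton (μ := coin.restrict A) (Finset.univ : Finset (Fin n → Bool))
    (f := rst n) (fun y _ => hm (MeasurableSet.singleton y))
  simp only [Finset.coe_univ, Set.preimage_univ, Measure.restrict_apply_univ] at h1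
  rw [← h1]
  refine Finset.sum_congr rfl fun s _ => ?_
  rw [Measure.restrict_apply (hm (MeasurableSet.singleton s))]

theorem rst_preimage (n : ℕ) (a : ℕ → Bool) : rst n ⁻¹' {rst n a} = cyl a n := by
  ext x
  simp only [Set.mem_preimage, Set.mem_singleton_iff, cyl, Set.mem_setOf_eq]
  constructor
  · intro h j hj
    exact congrFun h ⟨j, hj⟩
  · intro h
    funext j
    exact h j j.2

/-- closed sets of positive measure have large density in some cylinders of any large length -/
theorem dens {P : Set (ℕ → Bool)} (hP : IsClosed P) (h0 : coin P ≠ 0) :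
    ∃ N, ∀ n ≥ N, ∃ a, 3 * coin (cyl a n) < 4 * coin (cyl a n ∩ P) := by
  have h1 : Tendsto (fun n => 3 * coin (hull P n)) atTop (𝓝 (3 * coin P)) :=
    ENNReal.Tendsto.const_mul (tendsto_hull hP) (Or.inr (by norm_num))
  have h2 : 3 * coin P < 4 * coin P :=
    (ENNReal.mul_lt_mul_iff_left h0 (measure_ne_top _ _)).2 (by norm_num)
  obtain ⟨N, hN⟩ := eventually_atTop.1 (h1.eventually (gt_mem_nhds h2))
  refine ⟨N, fun n hn => ?_⟩
  by_contra hcon
  push Not at hcon
  have h3 := hN n hn
  rw [← sum_rst n P, ← sum_rst n (hull P n), Finset.mul_sum, Finset.mul_sum] at h3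
  refine absurd h3 (not_lt.2 (Finset.sum_le_sum fun s _ => ?_))
  by_cases hs : (rst n ⁻¹' {s} ∩ P).Nonempty
  · obtain ⟨a, ha, haP⟩ := hs
    have ha' : rst n a = s := ha
    subst ha'
    have h4 : rst n ⁻¹' {rst n a} ∩ hull P n = cyl a n := by
      rw [rst_preimage]
      refine Set.inter_eq_left.2 fun x hx => ⟨a, haP, fun j hj => (hx j hj).symm⟩
    rw [h4, rst_preimage]
    exact hcon a
  · rw [Set.not_nonempty_iff_eq_empty.1 hs, measure_empty, mul_zero]
    exact bot_le

/-- **Steinhaus.** The sum of two closed sets of positive measure contains a cylinder. -/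
theorem steinhaus {P Q : Set (ℕ → Bool)} (hP : IsClosed P) (hQ : IsClosed Q) (hP0 : coin P ≠ 0)
    (hQ0 : coin Q ≠ 0) : ∃ (n : ℕ) (a : ℕ → Bool), ∀ u ∈ cyl a n, ∃ x ∈ P, ∃ y ∈ Q, add x y = u := by
  obtain ⟨N, hN⟩ := dens hP hP0
  obtain ⟨M, hM⟩ := dens hQ hQ0
  obtain ⟨s, hs⟩ := hN (max N M) (le_max_left _ _)
  obtain ⟨t, ht⟩ := hM (max N M) (le_max_right _ _)
  set n := max N M with hn
  refine ⟨n, add s t, fun u hu => ?_⟩
  by_contra hcon
  push Not at hcon
  -- the translate of the first set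
  have h1 : coin (cyl s n ∩ P) = coin (add u ⁻¹' (cyl s n ∩ P)) := by
    conv_lhs => rw [← map_add u]
    exact Measure.map_apply (continuous_add_left u).measurable
      ((measurableSet_cyl s n).inter hP.measurableSet)
  have h2 : add u ⁻¹' (cyl s n ∩ P) ⊆ cyl t n := by
    rintro y ⟨hy, -⟩ j hj
    have e1 := hu j hj
    have e2 := hy j hj
    simp only [add] at e1 e2
    rw [e1] at e2
    revert e2
    cases s j <;> cases t j <;> cases y j <;> simp
  have h3 : Disjoint (add u ⁻¹' (cyl s n ∩ P)) (cyl t n ∩ Q) := by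
    rw [Set.disjoint_left]
    rintro y ⟨-, hyP⟩ ⟨-, hyQ⟩
    refine hcon _ hyP y hyQ ?_
    rw [add_comm', add_comm' u y, add_add_cancel]
  have h4 : coin (add u ⁻¹' (cyl s n ∩ P)) + coin (cyl t n ∩ Q) ≤ coin (cyl t n) := by
    rw [← measure_union h3 ((measurableSet_cyl t n).inter hQ.measurableSet)]
    exact measure_mono (Set.union_subset h2 Set.inter_subset_left)
  have h5 : coin (cyl s n) = coin (cyl t n) := by rw [coin_cyl, coin_cyl]
  have h6 : 3 * coin (cyl t n) + 3 * coin (cyl t n) < 4 * coin (cyl t n) := by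
    calc 3 * coin (cyl t n) + 3 * coin (cyl t n) = 3 * coin (cyl s n) + 3 * coin (cyl t n) := by
          rw [h5]
      _ < 4 * coin (cyl s n ∩ P) + 4 * coin (cyl t n ∩ Q) := ENNReal.add_lt_add hs ht
      _ = 4 * (coin (add u ⁻¹' (cyl s n ∩ P)) + coin (cyl t n ∩ Q)) := by rw [h1, mul_add]
      _ ≤ 4 * coin (cyl t n) := by gcongr
  have h7 : 3 * coin (cyl t n) + 3 * coin (cyl t n) = 6 * coin (cyl t n) := by ring
  rw [h7] at h6
  exact absurd h6 (not_lt.2 (by gcongr; norm_num))

/-- If `P` is closed and not null and `U` is open and dense, then almost every translate of `P`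
meets `U`. -/
theorem translate {P U : Set (ℕ → Bool)} (hP : IsClosed P) (hP0 : coin P ≠ 0) (hU : IsOpen U)
    (hU' : Dense U) : coin {w | ∀ x ∈ P, add x w ∉ U} = 0 := by
  by_contra h0
  have hcl : IsClosed {w | ∀ x ∈ P, add x w ∉ U} := by
    have h1 : {w | ∀ x ∈ P, add x w ∉ U} = ⋂ x ∈ P, (add x ⁻¹' U)ᶜ := by
      ext w
      simp
    rw [h1]
    exact isClosed_biInter fun x _ => (hU.preimage (continuous_add_left x)).isClosed_compl
  obtain ⟨n, a, ha⟩ := steinhaus hP hcl hP0 h0
  obtain ⟨u, huU, hu⟩ := hU'.exists_mem_open (isOpen_cyl a n) ⟨a, fun _ _ => rfl⟩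
  obtain ⟨x, hx, y, hy, rfl⟩ := ha u hu
  exact hy x hx huU

end Pool.Agent.Helper15TD
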