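import Mathlib
import Pool.Agent.Helper15_TD.Defs
import Pool.Agent.Helper15_TD.Steinhaus
import Pool.Agent.Helper56_WN.Codes

/-!
# Tests and countable unions of closed null sets
-/

set_option autoImplicit false

namespace Pool.Agent.Helper15TD

open MeasureTheory Filter Topology Pool.Agent.Helper25TD Pool.Agent.Helper56WN
open scoped ENNReal

/-- a closed null set is covered by a finite list of small weight -/
theorem exists_list {P : Set (ℕ → Bool)} (hP : IsClosed P) (h0 : coin P = 0) (i : ℕ) :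
    ∃ L : List (List Bool), wt L ≤ (1 / 4) ^ i ∧ P ⊆ Cov L := by
  classical
  have h1 := tendsto_hull hP
  rw [h0] at h1
  have h2 : (0 : ℝ≥0∞) < ENNReal.ofReal ((1 / 4 : ℝ) ^ i) := by
    rw [ENNReal.ofReal_pos]
    positivity
  obtain ⟨n, hn⟩ := (h1.eventually (gt_mem_nhds h2)).exists
  let L : List (List Bool) := (full n).filter fun s => ∃ x ∈ P, Init s x
  have hL : ∀ s, s ∈ L ↔ s.length = n ∧ ∃ x ∈ P, Init s x := by
    intro s
    simp [L, mem_full]
  have h3 : Cov L ⊆ hull P n := by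
    rintro x ⟨s, hs, hx⟩
    obtain ⟨hsn, x', hx', hsx'⟩ := (hL s).1 hs
    refine ⟨x', hx', fun j hj => ?_⟩
    rw [hsx' j (by rw [hsn]; exact hj), hx j (by rw [hsn]; exact hj)]
  have h4 : coin (Cov L) = ENNReal.ofReal (wt L) :=
    coin_cov_eq (m := n) ((nodup_full n).filter _) fun s hs => ((hL s).1 hs).1
  refine ⟨L, ?_, ?_⟩
  · have h5 : ENNReal.ofReal (wt L) ≤ ENNReal.ofReal ((1 / 4 : ℝ) ^ i) := by
      rw [← h4]
      exact (measure_mono h3).trans hn.le
    exact (ENNReal.ofReal_le_ofReal_iff (by positivity)).1 h5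
  · intro x hx
    refine ⟨pre x n, (hL _).2 ⟨by simp [pre], x, hx, init_pre x n⟩, init_pre x n⟩

theorem isClosed_cov (L : List (List Bool)) : IsClosed (Cov L) := by
  induction L with
  | nil =>
    rw [cov_nil]
    exact isClosed_empty
  | cons s L ih =>
    rw [cov_cons]
    refine IsClosed.union ?_ ih
    have h1 : {x | Init s x} = {x : ℕ → Bool | ∀ j < s.length, x j = s.getD j false} := rfl
    rw [h1]
    exact isClosed_cyl (fun j => s.getD j false) s.length

/-! ### thin sets -/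

theorem Thin.mono {S S' : Set (ℕ → Bool)} (h : Thin S) (hS : S' ⊆ S) : Thin S' := by
  obtain ⟨K, h1, h2⟩ := h
  exact ⟨K, h1, hS.trans h2⟩

theorem thin_of_closed {P : Set (ℕ → Bool)} (hP : IsClosed P) (h0 : coin P = 0) : Thin P :=
  ⟨fun _ => P, fun _ => ⟨hP, h0⟩, Set.subset_iUnion (fun _ : ℕ => P) 0⟩

theorem Thin.coin_eq {S : Set (ℕ → Bool)} (h : Thin S) : coin S = 0 := by
  obtain ⟨K, h1, h2⟩ := h
  exact measure_mono_null h2 (measure_iUnion_null fun n => (h1 n).2)

theorem thin_iUnion {S : ℕ → Set (ℕ → Bool)} (h : ∀ i, Thin (S i)) : Thin (⋃ i, S i) := by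
  choose K h1 h2 using h
  refine ⟨fun m => K m.unpair.1 m.unpair.2, fun m => h1 _ _, fun x hx => ?_⟩
  obtain ⟨i, hi⟩ := Set.mem_iUnion.1 hx
  obtain ⟨j, hj⟩ := Set.mem_iUnion.1 (h2 i hi)
  refine Set.mem_iUnion.2 ⟨Nat.pair i j, ?_⟩
  simpa using hj

theorem thin_biUnion {ι : Type*} {A : Set ι} (hA : A.Countable) {S : ι → Set (ℕ → Bool)}
    (h : ∀ i ∈ A, Thin (S i)) : Thin (⋃ i ∈ A, S i) := by
  rcases A.eq_empty_or_nonempty with h0 | h0
  · subst h0
    simp only [Set.mem_empty_iff_false, Set.iUnion_of_empty, Set.iUnion_empty]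
    exact thin_of_closed isClosed_empty measure_empty
  · obtain ⟨a, rfl⟩ := hA.exists_eq_range h0
    refine (thin_iUnion fun n => h (a n) (Set.mem_range_self n)).mono ?_
    intro x hx
    obtain ⟨i, ⟨n, rfl⟩, hi⟩ := Set.mem_iUnion₂.1 hx
    exact Set.mem_iUnion.2 ⟨n, hi⟩

theorem thin_Ev {C : ℕ → List (List Bool)} (hC : IsTest C) : Thin (Ev C) := by
  refine ⟨fun N => ⋂ n ∈ {n | N ≤ n}, Cov (C n), fun N => ⟨isClosed_biInter fun n _ =>
    isClosed_cov _, ?_⟩, fun x hx => ?_⟩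
  · refine measure_mono_null (fun x hx => ?_) (coin_Nl hC)
    intro M
    refine ⟨max N M, le_max_right _ _, ?_⟩
    exact Set.mem_iInter₂.1 hx (max N M) (show N ≤ max N M from le_max_left _ _)
  · obtain ⟨N, hN⟩ := hx
    exact Set.mem_iUnion.2 ⟨N, Set.mem_iInter₂.2 fun n hn => hN n hn⟩

theorem Thin.exists_test {S : Set (ℕ → Bool)} (h : Thin S) : ∃ C, IsTest C ∧ S ⊆ Ev C := by
  obtain ⟨K, h1, h2⟩ := h
  have h3 : ∀ n : ℕ, ∃ L : List (List Bool), wt L ≤ (1 / 4) ^ n ∧
      (⋃ i ∈ Finset.range (n + 1), K i) ⊆ Cov L := fun n =>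
    exists_list (isClosed_biUnion_finset fun i _ => (h1 i).1)
      ((measure_biUnion_null_iff (Finset.countable_toSet _)).2 fun i _ => (h1 i).2) n
  choose C hC1 hC2 using h3
  refine ⟨C, hC1, fun x hx => ?_⟩
  obtain ⟨i, hi⟩ := Set.mem_iUnion.1 (h2 hx)
  exact ⟨i, fun n hn => hC2 n (Set.mem_biUnion (Finset.mem_coe.2 (Finset.mem_range.2 (by omega)))
    hi)⟩

/-! ### the combination of a sequence of tests -/

/-- the combination of a sequence of tests -/
noncomputable def star (η : ℕ → ℕ → List (List Bool)) (n : ℕ) : List (List Bool) :=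
  (List.range (n + 1)).flatMap fun i => trim (n + i + 1) (η i (n + i + 1))

theorem isTest_star (η : ℕ → ℕ → List (List Bool)) : IsTest (star η) := by
  intro n
  unfold star
  rw [wt_flatMap]
  have h1 : ∀ m : ℕ, ((List.range m).map fun i => wt (trim (n + i + 1) (η i (n + i + 1)))).sum ≤
      (1 / 4) ^ n * (1 - (1 / 4) ^ m) := by
    intro m
    induction m with
    | zero => simp
    | succ m ih =>
      rw [List.range_succ, List.map_append, List.sum_append]
      simp only [List.map_cons, List.map_nil, List.sum_cons, List.sum_nil, add_zero]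
      have h2 := wt_trim (n + m + 1) (η m (n + m + 1))
      have h3 : (1 / 4 : ℝ) ^ (n + m + 1) = (1 / 4) ^ n * ((1 / 4) ^ m * (1 / 4)) := by
        rw [pow_succ, pow_add]
        ring
      have h4 : (1 / 4 : ℝ) ^ (m + 1) = (1 / 4) ^ m * (1 / 4) := pow_succ _ _
      have h5 : (0 : ℝ) ≤ (1 / 4 : ℝ) ^ n * (1 / 4) ^ m := by positivity
      rw [h3] at h2
      rw [h4]
      nlinarith
  have h2 : (0 : ℝ) ≤ (1 / 4 : ℝ) ^ n * (1 / 4) ^ (n + 1) := by positivity
  have h3 := h1 (n + 1)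
  nlinarith

theorem Ev_star {η : ℕ → ℕ → List (List Bool)} {i : ℕ} (h : IsTest (η i)) :
    Ev (η i) ⊆ Ev (star η) := by
  rintro x ⟨N, hN⟩
  refine ⟨max N i, fun n hn => ?_⟩
  obtain ⟨s, hs, hx⟩ := hN (n + i + 1) (by omega)
  refine ⟨s, ?_, hx⟩
  unfold star
  rw [List.mem_flatMap]
  refine ⟨i, List.mem_range.2 (by omega), ?_⟩
  rw [trim_eq (h _)]
  exact hs

end Pool.Agent.Helper15TD
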