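import Mathlib
import Pool.Agent.Helper15_TD.Tests
import Pool.Agent.Helper15_TD.Closure

/-!
# Generic enumerations of countable families of tests
-/

set_option autoImplicit false

namespace Pool.Agent.Helper15TD

open MeasureTheory Filter Topology Pool.Agent.Helper25TD Pool.Agent.Helper56WN
open Pool.Agent.Helper56WM (grf grf_pair TR_of_grf)
open scoped ENNReal

/-- sequences of finite lists of strings -/
abbrev Seq : Type := ℕ → List (List Bool)

/-- the join of `z` and a code of the combination of the sequence `η` -/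
noncomputable def yy (z : ℕ → Bool) (η : ℕ → Seq) : ℕ → Bool :=
  Pool.Agent.Helper25TD.join z (grf fun n => Encodable.encode (star η n))

/-- agreement of the first `N` entries of the first `N` rows -/
def Agr (N : ℕ) (η η' : ℕ → Seq) : Prop := ∀ i < N, ∀ j < N, η i j = η' i j

theorem star_congr {n : ℕ} {η η' : ℕ → Seq} (h : Agr (2 * n + 2) η η') : star η n = star η' n := by
  unfold star
  refine List.flatMap_congr fun i hi => ?_
  rw [List.mem_range] at hi
  rw [h i (by omega) (n + i + 1) (by omega)]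

theorem yy_congr (z : ℕ → Bool) {M : ℕ} {η η' : ℕ → Seq} (h : Agr (2 * M + 2) η η') :
    ∀ j < M, yy z η j = yy z η' j := by
  classical
  intro j hj
  unfold yy Pool.Agent.Helper25TD.join
  split_ifs
  · rfl
  · have h1 : star η (j / 2).unpair.1 = star η' (j / 2).unpair.1 := by
      have h2 := Nat.unpair_left_le (j / 2)
      exact star_congr fun i hi l hl => h i (by omega) l (by omega)
    simp only [grf, h1]

/-- the possible values of the functional `e` at `yy z η`, where `η` agrees with `η0` below `n` -/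
def Pos (z : ℕ → Bool) (e : OCode) (η0 : ℕ → Seq) (n : ℕ) : Set (ℕ → Bool) :=
  {x | ∀ m, ∃ η : ℕ → Seq, (∀ i < n, η i = η0 i) ∧ ∀ l < m, yy z η ∈ U e l (x l)}

theorem Pos_congr (z : ℕ → Bool) (e : OCode) {η0 η1 : ℕ → Seq} {n : ℕ}
    (h : ∀ i < n, η0 i = η1 i) : Pos z e η0 n = Pos z e η1 n := by
  ext x
  unfold Pos
  simp only [Set.mem_setOf_eq]
  refine forall_congr' fun m => exists_congr fun η => and_congr_left fun _ => ?_
  exact forall₂_congr fun i hi => by rw [h i hi]

theorem isClosed_Pos (z : ℕ → Bool) (e : OCode) (η0 : ℕ → Seq) (n : ℕ) :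
    IsClosed (Pos z e η0 n) := by
  rw [← isOpen_compl_iff, isOpen_iff_forall_mem_open]
  intro x hx
  have hx' : ∃ m, ∀ η : ℕ → Seq, (∀ i < n, η i = η0 i) → ∃ l < m, yy z η ∉ U e l (x l) := by
    by_contra hcon
    push Not at hcon
    exact hx hcon
  obtain ⟨m, hm⟩ := hx'
  refine ⟨{β | ∀ j < m, β j = x j}, ?_, isOpen_cyl x m, fun _ _ => rfl⟩
  intro y hy hyP
  obtain ⟨η, hη, h⟩ := hyP m
  obtain ⟨l, hl, hne⟩ := hm η hη
  apply hne
  rw [← hy l hl]
  exact h l hl

/-- finitely many values of a functional are decided by finitely many entries -/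
theorem exists_agr (z : ℕ → Bool) (e : OCode) {η : ℕ → Seq} {x : ℕ → Bool} {m : ℕ}
    (h : ∀ l < m, yy z η ∈ U e l (x l)) :
    ∃ N, ∀ η', Agr N η η' → ∀ l < m, yy z η' ∈ U e l (x l) := by
  have h1 : IsOpen (⋂ l ∈ Finset.range m, U e l (x l)) :=
    isOpen_biInter_finset fun l _ => isOpen_U e l (x l)
  obtain ⟨M, hM⟩ := exists_cyl h1 (Set.mem_iInter₂.2 fun l hl => h l (Finset.mem_range.1 hl))
  refine ⟨2 * M + 2, fun η' hη' l hl => ?_⟩
  have h2 := hM (yy z η') fun j hj => (yy_congr z hη' j hj).symm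
  exact Set.mem_iInter₂.1 h2 l (Finset.mem_range.2 hl)

/-! ### the family of letters -/

/-- the covering test of `S` if `S` is thin -/
noncomputable def cvt (S : Set (ℕ → Bool)) : Seq := by
  classical
  exact if h : Thin S then h.exists_test.choose else fun _ => []

theorem cvt_spec {S : Set (ℕ → Bool)} (h : Thin S) : IsTest (cvt S) ∧ S ⊆ Ev (cvt S) := by
  classical
  unfold cvt
  rw [dif_pos h]
  exact h.exists_test.choose_spec

/-- a countable family of letters that contains all finite sequences and the covering tests of all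
thin sets of possible values -/
structure Letters (E : Set (ℕ → Bool)) (z : ℕ → Bool) (a : ℕ → Seq) : Prop where
  fin : ∀ (C : Seq) (N : ℕ), ∃ i, ∀ j < N, a i j = C j
  cov : ∀ (e : OCode) (s : ℕ → ℕ) (n : ℕ),
    ∃ i, a i = cvt (E ∩ Pos z e (fun j => a (s j)) n)

theorem exists_letters (E : Set (ℕ → Bool)) (z : ℕ → Bool) : ∃ a : ℕ → Seq, Letters E z a := by
  let S0 : Set Seq := Set.range fun (L : List (List (List Bool))) (j : ℕ) => L.getD j []
  obtain ⟨A, h1, h2, h3⟩ := exists_closure (I := OCode)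
    (fun e (l : List Seq) => cvt (E ∩ Pos z e (fun i => l.getD i fun _ => []) l.length))
    (S0 := S0) (Set.countable_range _)
  obtain ⟨a, ha⟩ := h1.exists_eq_range ⟨_, h2 ⟨[], rfl⟩⟩
  refine ⟨a, fun C N => ?_, fun e s n => ?_⟩
  · have h4 : (fun j : ℕ => ((List.range N).map C).getD j []) ∈ A :=
      h2 ⟨(List.range N).map C, rfl⟩
    rw [ha] at h4
    obtain ⟨i, hi⟩ := h4
    refine ⟨i, fun j hj => ?_⟩
    rw [hi]
    simp [List.getD_eq_getElem?_getD, hj]
  · have h4 := h3 e ((List.range n).map fun j => a (s j)) (fun x hx => by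
      obtain ⟨j, -, rfl⟩ := List.mem_map.1 hx
      rw [ha]
      exact Set.mem_range_self _)
    rw [ha] at h4
    obtain ⟨i, hi⟩ := h4
    refine ⟨i, hi.trans ?_⟩
    have h5 : Pos z e (fun i => ((List.range n).map fun j => a (s j)).getD i fun _ => [])
        ((List.range n).map fun j => a (s j)).length = Pos z e (fun j => a (s j)) n := by
      rw [List.length_map, List.length_range]
      refine Pos_congr z e fun i hi => ?_
      simp [List.getD_eq_getElem?_getD, hi]
    simp only [h5]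

/-! ### the dense open sets -/

/-- sequences `h` of indices such that the value of `e` is forced into `V` -/
def On (z : ℕ → Bool) (a : ℕ → Seq) (V : Set (ℕ → Bool)) (e : OCode) : Set (ℕ → ℕ) :=
  {h | ∃ (x : ℕ → Bool) (m N : ℕ),
    (∀ η, Agr N (fun i => a (h i)) η → ∀ l < m, yy z η ∈ U e l (x l)) ∧
    ∀ x', (∀ l < m, x' l = x l) → x' ∈ V}

/-- sequences `h` of indices such that the value of `e` is confined to a thin part of `E` -/
def Zn (E : Set (ℕ → Bool)) (z : ℕ → Bool) (a : ℕ → Seq) (e : OCode) : Set (ℕ → ℕ) :=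
  {h | ∃ n, Thin (E ∩ Pos z e (fun i => a (h i)) n)}

theorem isOpen_cylN (h : ℕ → ℕ) (N : ℕ) : IsOpen {g : ℕ → ℕ | ∀ i < N, g i = h i} := by
  have h1 : {g : ℕ → ℕ | ∀ i < N, g i = h i} =
      ⋂ i ∈ Finset.range N, (fun g : ℕ → ℕ => g i) ⁻¹' {h i} := by
    ext g
    simp
  rw [h1]
  exact isOpen_biInter_finset fun i _ => (isOpen_discrete _).preimage (continuous_apply i)

theorem isOpen_of_cylN {O : Set (ℕ → ℕ)}
    (hO : ∀ h ∈ O, ∃ N, ∀ g : ℕ → ℕ, (∀ i < N, g i = h i) → g ∈ O) : IsOpen O := by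
  rw [isOpen_iff_forall_mem_open]
  intro h hh
  obtain ⟨N, hN⟩ := hO h hh
  exact ⟨_, fun g hg => hN g hg, isOpen_cylN h N, fun _ _ => rfl⟩

theorem dense_of_cylN {O : Set (ℕ → ℕ)}
    (hO : ∀ (h : ℕ → ℕ) (N : ℕ), ∃ g ∈ O, ∀ i < N, g i = h i) : Dense O := by
  rw [dense_iff_inter_open]
  rintro V hV ⟨h, hh⟩
  rw [isOpen_pi_iff] at hV
  obtain ⟨I, u, hu, huV⟩ := hV h hh
  obtain ⟨g, hg, hgh⟩ := hO h (I.sup id + 1)
  refine ⟨g, huV fun i hi => ?_, hg⟩
  have h1 : i ≤ I.sup id := Finset.le_sup (f := id) (Finset.mem_coe.1 hi)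
  rw [hgh i (by omega)]
  exact (hu i (Finset.mem_coe.1 hi)).2

theorem isOpen_On (z : ℕ → Bool) (a : ℕ → Seq) (V : Set (ℕ → Bool)) (e : OCode) :
    IsOpen (On z a V e) := by
  refine isOpen_of_cylN ?_
  rintro h ⟨x, m, N, h1, h2⟩
  refine ⟨N, fun g hg => ⟨x, m, N, fun η hη => h1 η fun i hi j hj => ?_, h2⟩⟩
  rw [← hη i hi j hj]
  simp only [hg i hi]

theorem isOpen_Zn (E : Set (ℕ → Bool)) (z : ℕ → Bool) (a : ℕ → Seq) (e : OCode) :
    IsOpen (Zn E z a e) := by
  refine isOpen_of_cylN ?_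
  rintro h ⟨n, hn⟩
  refine ⟨n, fun g hg => ⟨n, ?_⟩⟩
  rwa [Pos_congr z e (η1 := fun i => a (h i)) fun i hi => by simp only [hg i hi]]

/-- the sets of possible values that are not thin meet `V` -/
def Meet (E : Set (ℕ → Bool)) (z : ℕ → Bool) (a : ℕ → Seq) (V : Set (ℕ → Bool)) : Prop :=
  ∀ (e : OCode) (s : ℕ → ℕ) (n : ℕ), ¬ Thin (E ∩ Pos z e (fun i => a (s i)) n) →
    (Pos z e (fun i => a (s i)) n ∩ V).Nonempty

theorem dense_On {E : Set (ℕ → Bool)} {z : ℕ → Bool} {a : ℕ → Seq} (ha : Letters E z a)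
    {V : Set (ℕ → Bool)} (hV : IsOpen V) (hw : Meet E z a V) (e : OCode) :
    Dense (On z a V e ∪ Zn E z a e) := by
  refine dense_of_cylN fun h n => ?_
  by_cases h0 : Thin (E ∩ Pos z e (fun i => a (h i)) n)
  · exact ⟨h, Or.inr ⟨n, h0⟩, fun _ _ => rfl⟩
  · obtain ⟨x, hxP, hxV⟩ := hw e h n h0
    obtain ⟨m, hm⟩ := exists_cyl hV hxV
    obtain ⟨η, hη, hηx⟩ := hxP m
    obtain ⟨N, hN⟩ := exists_agr z e hηx
    have h1 : ∀ i, ∃ j, ∀ l < N, a j l = η i l := fun i => ha.fin (η i) N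
    choose b hb using h1
    refine ⟨fun i => if i < n then h i else b i, Or.inl ⟨x, m, N, fun η' hη' => hN η' ?_,
      fun x' hx' => hm x' hx'⟩, fun i hi => if_pos hi⟩
    intro i hi j hj
    rw [← hη' i hi j hj]
    by_cases hin : i < n
    · simp only [hin, if_true, hη i hin]
    · simp only [hin, if_false]
      exact (hb i j hj).symm

/-- The key: some test computable from `y` covers all elements of `E` that are computable from `y`
and do not belong to all `V k`. -/
theorem exists_generic {E : Set (ℕ → Bool)} {z : ℕ → Bool} {a : ℕ → Seq} (ha : Letters E z a)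
    {V : ℕ → Set (ℕ → Bool)} (hV : ∀ k, IsOpen (V k)) (hw : ∀ k, Meet E z a (V k)) :
    ∃ y, TLE z y ∧ ∃ C, IsTest C ∧ Computes y C ∧
      ∀ x ∈ E, TLE x y → (∃ k, x ∉ V k) → x ∈ Ev C := by
  have h1 : ∀ᶠ h in residual (ℕ → ℕ), ∀ j : ℕ, ∃ i, h i = j := by
    refine eventually_countable_forall.2 fun j => ?_
    refine residual_of_dense_open (isOpen_of_cylN ?_) (dense_of_cylN fun h N => ?_)
    · rintro h ⟨i, hi⟩
      exact ⟨i + 1, fun g hg => ⟨i, by rw [hg i (Nat.lt_succ_self i), hi]⟩⟩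
    · exact ⟨fun i => if i < N then h i else j, ⟨N, by simp⟩, fun i hi => if_pos hi⟩
  have h2 : ∀ᶠ h in residual (ℕ → ℕ), ∀ (e : OCode) (k : ℕ),
      h ∈ On z a (V k) e ∪ Zn E z a e := by
    refine eventually_countable_forall.2 fun e => ?_
    refine eventually_countable_forall.2 fun k => ?_
    exact residual_of_dense_open ((isOpen_On z a (V k) e).union (isOpen_Zn E z a e))
      (dense_On ha (hV k) (hw k) e)
  obtain ⟨h, hg1, hg2⟩ : ∃ h : ℕ → ℕ, (∀ j : ℕ, ∃ i, h i = j) ∧
      ∀ (e : OCode) (k : ℕ), h ∈ On z a (V k) e ∪ Zn E z a e :=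
    (dense_of_mem_residual (h1.and h2)).nonempty
  set η : ℕ → Seq := fun i => a (h i) with hη
  refine ⟨yy z η, TLE.join_left _ _, star η, isTest_star η,
    TR_of_grf (F := fun i => Encodable.encode (star η i)) (TLE.join_right _ _), ?_⟩
  rintro x hxE hx ⟨k, hk⟩
  obtain ⟨e, he⟩ := exists_U hx
  have h3 : h ∉ On z a (V k) e := by
    rintro ⟨x', m, N, h4, h5⟩
    refine hk (h5 x fun l hl => ?_)
    by_contra hne
    refine disjoint_U e l (yy z η) ?_
    have h6 := he l
    have h7 := h4 η (fun _ _ _ _ => rfl) l hl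
    revert h6 h7 hne
    cases x l <;> cases x' l <;> intro h6 h7 h8 <;>
      first | exact absurd rfl h6 | exact ⟨h7, h8⟩ | exact ⟨h8, h7⟩
  obtain ⟨n, hn⟩ : h ∈ Zn E z a e := (hg2 e k).resolve_left h3
  obtain ⟨j, hj⟩ := ha.cov e h n
  obtain ⟨i, hi⟩ := hg1 j
  obtain ⟨h4, h5⟩ := cvt_spec hn
  have h6 : η i = cvt (E ∩ Pos z e (fun j => a (h j)) n) := by
    rw [← hj, hη]
    simp only [hi]
  rw [← h6] at h4 h5
  exact Ev_star h4 (h5 ⟨hxE, fun m => ⟨η, fun _ _ => rfl, fun l _ => he l⟩⟩)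

end Pool.Agent.Helper15TD
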