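import Mathlib
import Pool.Agent.Helper15_TD.Enum

/-!
# The game for a set of reals
-/

set_option autoImplicit false

namespace Pool.Agent.Helper15TD

open MeasureTheory Filter Topology Pool.Agent.Helper25TD Pool.Agent.Helper56WN
open Pool.Agent.Helper56TB (cone_of_winsI cone_of_winsII winsI_of_cone winsII_of_cone)
open scoped ENNReal

variable {E F : Set (ℕ → Bool)}

/-- the upper bound property -/
def EvSacks : Prop := ∃ Z : ℕ → Bool, ∀ z : ℕ → (ℕ → Bool), TLE Z (z 0) →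
    (∀ n, TLE (z n) (z (n + 1))) → ∃ t, (∀ n, TLE (z n) t) ∧
      ∀ C, IsTest C → Computes t C → ∃ n C', IsTest C' ∧ Computes (z n) C' ∧ Ev C ⊆ Ev C'

theorem turingInvariant_vis (E : Set (ℕ → Bool)) : TuringInvariant (Vis E) := by
  rintro x y hxy hyx ⟨C, hCt, hC, hCx⟩
  exact ⟨C, hCt, hC.mono hxy, fun e he hey => hCx e he (hey.trans hyx)⟩

/-- If `E` is not thin, then the complement of `Vis E` meets every cone. -/
theorem exists_not_mem_vis (hS : EvSacks) (hE : ¬ Thin E) (z : ℕ → Bool) :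
    ∃ t, TLE z t ∧ t ∉ Vis E := by
  obtain ⟨Z, hZ⟩ := hS
  have step : ∀ y : ℕ → Bool, ∃ x : ℕ → Bool, x ∈ E ∧ ∀ C, IsTest C → Computes y C → x ∉ Ev C := by
    intro y
    by_contra hcon
    push Not at hcon
    refine hE ((thin_biUnion (countable_computes y) fun C hC => thin_Ev hC.1).mono ?_)
    intro x hx
    obtain ⟨C, hCt, hC, hxC⟩ := hcon x hx
    exact Set.mem_biUnion (show C ∈ {C | IsTest C ∧ Computes y C} from ⟨hCt, hC⟩) hxC
  choose X h1 h2 using step
  let y : ℕ → (ℕ → Bool) := fun n =>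
    Nat.rec (Pool.Agent.Helper25TD.join z Z) (fun _ y => Pool.Agent.Helper25TD.join y (X y)) n
  have hy : ∀ n, y (n + 1) = Pool.Agent.Helper25TD.join (y n) (X (y n)) := fun n => rfl
  obtain ⟨t, ht1, ht2⟩ := hZ y (TLE.join_right z Z) (fun n => by
    rw [hy]
    exact TLE.join_left _ _)
  refine ⟨t, (TLE.join_left z Z).trans (ht1 0), ?_⟩
  rintro ⟨C, hCt, hC, hCS⟩
  obtain ⟨n, C', hC't, hC', hCC⟩ := ht2 C hCt hC
  have h5 : TLE (X (y n)) t := by
    refine TLE.trans ?_ (ht1 (n + 1))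
    rw [hy]
    exact TLE.join_right _ _
  exact h2 (y n) C' hC't hC' (hCC (hCS _ (h1 (y n)) h5))

/-- Player I wins if and only if `E` is thin. -/
theorem winsI_iff (hS : EvSacks) (E : Set (ℕ → Bool)) : WinsI (Vis E) ↔ Thin E := by
  constructor
  · intro h
    by_contra hE
    obtain ⟨z, hz⟩ := cone_of_winsI (turingInvariant_vis E) h
    obtain ⟨t, ht, ht'⟩ := exists_not_mem_vis hS hE z
    exact ht' (hz t ht)
  · intro hE
    obtain ⟨C, hCt, hC⟩ := hE.exists_test
    obtain ⟨z, hz⟩ := exists_computes C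
    exact winsI_of_cone (z := z) fun y hy => ⟨C, hCt, hz y hy, fun x hx _ => hC hx⟩

/-- **The main theorem.** If player II wins the game, then there is a countable family `PP` of
closed sets `P` such that `E ∩ P` is not thin and every countable cover of `E` by closed sets has a
member that contains some `P ∈ PP`. -/
theorem based (hII : WinsII (Vis E)) : ∃ PP : Set (Set (ℕ → Bool)), PP.Countable ∧
    (∀ P ∈ PP, IsClosed P ∧ ¬ Thin (E ∩ P)) ∧
    ∀ K : ℕ → Set (ℕ → Bool), (∀ k, IsClosed (K k)) → E ⊆ ⋃ k, K k → ∃ k, ∃ P ∈ PP, P ⊆ K k := by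
  obtain ⟨z, hz⟩ := cone_of_winsII (turingInvariant_vis E) hII
  obtain ⟨a, ha⟩ := exists_letters E z
  have hpos : ∀ (e : OCode) (s : ℕ → ℕ) (n : ℕ), ∃ l : List ℕ,
      Pos z e (fun i => a (s i)) n = Pos z e (fun i => a (l.getD i 0)) l.length := by
    intro e s n
    refine ⟨(List.range n).map s, ?_⟩
    rw [List.length_map, List.length_range]
    refine Pos_congr z e fun i hi => ?_
    simp [List.getD_eq_getElem?_getD, hi]
  refine ⟨{P | ∃ (e : OCode) (l : List ℕ), P = Pos z e (fun i => a (l.getD i 0)) l.length ∧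
    ¬ Thin (E ∩ P)}, ?_, ?_, fun K hK hEK => ?_⟩
  · refine (Set.countable_range fun p : OCode × List ℕ =>
      Pos z p.1 (fun i => a (p.2.getD i 0)) p.2.length).mono ?_
    rintro P ⟨e, l, rfl, -⟩
    exact ⟨(e, l), rfl⟩
  · rintro P ⟨e, l, rfl, h0⟩
    exact ⟨isClosed_Pos _ _ _ _, h0⟩
  · by_contra hcon
    push Not at hcon
    obtain ⟨y, hy, C, hCt, hC, hCx⟩ := exists_generic ha (V := fun k => (K k)ᶜ)
      (fun k => (hK k).isOpen_compl) fun k e s n h0 => by
        obtain ⟨l, hl⟩ := hpos e s n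
        obtain ⟨x, hx, hxK⟩ := Set.not_subset.1 (hcon k (Pos z e (fun i => a (s i)) n)
          ⟨e, l, hl, h0⟩)
        exact ⟨x, hx, hxK⟩
    refine hz y hy ⟨C, hCt, hC, fun x hx hxy => hCx x hx hxy ?_⟩
    obtain ⟨k, hk⟩ := Set.mem_iUnion.1 (hEK hx)
    exact ⟨k, fun h3 => h3 hk⟩

/-- If player II wins, `F` is not thin, and `E × F` is covered by countably many closed sets, then
one of these closed sets contains a closed rectangle `P × Q` such that `E ∩ P` and `F ∩ Q` are not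
thin. -/
theorem rectangles (hII : WinsII (Vis E)) (hF : ¬ Thin F)
    {K : ℕ → Set ((ℕ → Bool) × (ℕ → Bool))} (hK : ∀ k, IsClosed (K k))
    (hEF : E ×ˢ F ⊆ ⋃ k, K k) : ∃ (k : ℕ) (P Q : Set (ℕ → Bool)), IsClosed P ∧ IsClosed Q ∧
      ¬ Thin (E ∩ P) ∧ ¬ Thin (F ∩ Q) ∧ P ×ˢ Q ⊆ K k := by
  obtain ⟨PP, h1, h2, h3⟩ := based hII
  by_contra hcon
  push Not at hcon
  have hQ : ∀ (k : ℕ) (P : Set (ℕ → Bool)), IsClosed {w | ∀ x ∈ P, (x, w) ∈ K k} := by
    intro k P
    have h4 : {w | ∀ x ∈ P, (x, w) ∈ K k} = ⋂ x ∈ P, (fun w => (x, w)) ⁻¹' K k := by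
      ext w
      simp
    rw [h4]
    exact isClosed_biInter fun x _ => (hK k).preimage (Continuous.prodMk_right x)
  have h5 : F ⊆ ⋃ k : ℕ, ⋃ P ∈ PP, F ∩ {w | ∀ x ∈ P, (x, w) ∈ K k} := by
    intro w hw
    obtain ⟨k, P, hP, hPK⟩ := h3 (fun k => (fun x => (x, w)) ⁻¹' K k)
      (fun k => (hK k).preimage (Continuous.prodMk_left w)) (fun x hx => by
        obtain ⟨k, hk⟩ := Set.mem_iUnion.1 (hEF (Set.mk_mem_prod hx hw))
        exact Set.mem_iUnion.2 ⟨k, hk⟩)
    exact Set.mem_iUnion.2 ⟨k, Set.mem_iUnion₂.2 ⟨P, hP, hw, fun x hx => hPK hx⟩⟩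
  refine hF ((thin_iUnion fun k => thin_biUnion h1 fun P hP => ?_).mono h5)
  by_contra h0
  refine hcon k P _ (h2 P hP).1 (hQ k P) (h2 P hP).2 h0 ?_
  rintro ⟨x, w⟩ ⟨hx, hw⟩
  exact hw x hx

/-- a comeager set contains the intersection of a sequence of dense open sets -/
theorem exists_seq {D : Set (ℕ → Bool)} (hD : D ∈ residual (ℕ → Bool)) :
    ∃ V : ℕ → Set (ℕ → Bool), (∀ k, IsOpen (V k)) ∧ (∀ k, Dense (V k)) ∧ ⋂ k, V k ⊆ D := by
  obtain ⟨S, hS1, hS2, hS3, hS4⟩ := mem_residual_iff.1 hD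
  obtain ⟨V, hV⟩ := (hS3.insert Set.univ).exists_eq_range (Set.insert_nonempty _ _)
  have h1 : ∀ k, V k = Set.univ ∨ V k ∈ S := fun k => by
    have : V k ∈ insert Set.univ S := by
      rw [hV]
      exact Set.mem_range_self k
    exact this
  refine ⟨V, fun k => ?_, fun k => ?_, fun x hx => hS4 ?_⟩
  · rcases h1 k with h | h
    · rw [h]
      exact isOpen_univ
    · exact hS1 _ h
  · rcases h1 k with h | h
    · rw [h]
      exact dense_univ
    · exact hS2 _ h
  · rintro s hs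
    have h2 : s ∈ insert Set.univ S := Set.mem_insert_of_mem _ hs
    rw [hV] at h2
    obtain ⟨k, rfl⟩ := h2
    exact Set.mem_iInter.1 hx k

theorem continuous_add : Continuous fun p : (ℕ → Bool) × (ℕ → Bool) => add p.1 p.2 := by
  refine continuous_pi fun n => ?_
  have h1 : Continuous fun p : (ℕ → Bool) × (ℕ → Bool) => (p.1 n, p.2 n) :=
    ((continuous_apply n).comp continuous_fst).prodMk ((continuous_apply n).comp continuous_snd)
  exact (continuous_of_discreteTopology (f := fun b : Bool × Bool => xor b.1 b.2)).comp h1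

theorem coin_ne_of_not_thin {P : Set (ℕ → Bool)} (hP : IsClosed P) (h : ¬ Thin (E ∩ P)) :
    coin P ≠ 0 := fun h0 => h ((thin_of_closed hP h0).mono Set.inter_subset_right)

/-- If player II wins and `F` is not thin, then `E + F` is not meager. -/
theorem not_isMeagre_sums (hII : WinsII (Vis E)) (hF : ¬ Thin F) : ¬ IsMeagre (Sums E F) := by
  intro hm
  obtain ⟨V, hV1, hV2, hV3⟩ := exists_seq hm
  obtain ⟨k, P, Q, hP, hQ, hEP, hFQ, hPQ⟩ := rectangles hII hF
    (K := fun k => {p | add p.1 p.2 ∉ V k})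
    (fun k => ((hV1 k).preimage continuous_add).isClosed_compl) (by
      rintro ⟨x, y⟩ ⟨hx, hy⟩
      by_contra hcon
      simp only [Set.mem_iUnion, not_exists] at hcon
      refine hV3 (Set.mem_iInter.2 fun k => ?_) ⟨x, hx, y, hy, rfl⟩
      by_contra h2
      exact hcon k h2)
  obtain ⟨n, a, ha⟩ := steinhaus hP hQ (coin_ne_of_not_thin hP hEP)
    (coin_ne_of_not_thin hQ hFQ)
  obtain ⟨u, huV, hu⟩ := (hV2 k).exists_mem_open (isOpen_cyl a n) ⟨a, fun _ _ => rfl⟩
  obtain ⟨x, hx, y, hy, rfl⟩ := ha u hu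
  exact hPQ (Set.mk_mem_prod hx hy) huV

end Pool.Agent.Helper15TD
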