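import Mathlib
import Pool.Agent.Helper15_TD.Main
import Pool.Agent.Helper19_TD.Evs
import Pool.Agent.Helper56_TB.Filters

/-!
# Consequences
-/

set_option autoImplicit false

namespace Pool.Agent.Helper15TD

open MeasureTheory Filter Topology Pool.Agent.Helper25TD Pool.Agent.Helper56WN
open Pool.Agent.Helper56TB (Members Clocked flip_mem_residual isMeagre_members)

theorem evSacks : EvSacks := Pool.Agent.Helper19TD.exists_sacks_ev

theorem winsI_iff_thin (E : Set (ℕ → Bool)) : WinsI (Vis E) ↔ Thin E := winsI_iff evSacks E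

theorem winsII_of_determined {E : Set (ℕ → Bool)} (h : WinsI (Vis E) ∨ WinsII (Vis E))
    (hE : ¬ Thin E) : WinsII (Vis E) := h.resolve_left fun h2 => hE ((winsI_iff_thin E).1 h2)

theorem not_thin_of_winsII {E : Set (ℕ → Bool)} (h : WinsII (Vis E)) : ¬ Thin E := by
  intro h0
  obtain ⟨z1, h1⟩ := Pool.Agent.Helper56TB.cone_of_winsII (turingInvariant_vis E) h
  obtain ⟨z2, h2⟩ := Pool.Agent.Helper56TB.cone_of_winsI (turingInvariant_vis E)
    ((winsI_iff_thin E).2 h0)
  exact h1 (Pool.Agent.Helper25TD.join z1 z2) (TLE.join_left _ _)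
    (h2 (Pool.Agent.Helper25TD.join z1 z2) (TLE.join_right _ _))

/-- If player II wins, then the complement of `E + D` is thin for every comeager set `D`. -/
theorem thin_compl_of_winsII {E : Set (ℕ → Bool)} (h : WinsII (Vis E)) {D : Set (ℕ → Bool)}
    (hD : D ∈ residual (ℕ → Bool)) : Thin (Sums E D)ᶜ := by
  by_contra hF
  refine not_isMeagre_sums h hF ?_
  change (Sums E (Sums E D)ᶜ)ᶜ ∈ residual (ℕ → Bool)
  filter_upwards [hD] with d hd
  rintro ⟨x, hx, f, hf, h1⟩
  have h2 : d = add x f := h1
  refine hf ⟨x, hx, d, hd, ?_⟩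
  change f = add x d
  rw [h2, add_add_cancel]

/-- A meager filter `F` on `ω` such that `Vis F` is determined is thin. -/
theorem thin_members {F : Filter ℕ} (hm : IsMeagre (Members F))
    (h : WinsI (Vis (Members F)) ∨ WinsII (Vis (Members F))) : Thin (Members F) := by
  by_contra h0
  refine not_isMeagre_sums (winsII_of_determined h h0) h0 ?_
  have h1 := flip_mem_residual (fun _ => true) hm
  change (Sums (Members F) (Members F))ᶜ ∈ residual (ℕ → Bool)
  filter_upwards [h1] with w hw
  rintro ⟨x, hx, y, hy, hxy⟩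
  refine hw ?_
  have h2 : {n | x n = true} ∩ {n | y n = true} ∈ F := Filter.inter_mem hx hy
  refine Filter.mem_of_superset h2 ?_
  rintro n ⟨h3, h4⟩
  have h5 : x n = true := h3
  have h6 : y n = true := h4
  change Pool.Agent.Helper56TB.flip (fun _ => true) w n = true
  rw [Pool.Agent.Helper56TB.flip_apply, hxy]
  simp [h5, h6]

/-- Turing determinacy implies that every filter on `ω` that contains the cofinite sets is covered
by countably many closed null sets. -/
theorem filters_thin (hTD : ∀ A : Set (ℕ → Bool), TuringInvariant A → WinsI A ∨ WinsII A)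
    {F : Filter ℕ} (hne : F.NeBot) (hF : F ≤ Filter.cofinite) : Thin (Members F) :=
  thin_members (isMeagre_members hne hF
    (hTD _ (Pool.Agent.Helper56TB.turingInvariant_clocked _))) (hTD _ (turingInvariant_vis _))

end Pool.Agent.Helper15TD
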